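import Pool.Agent.Y34.HB.Stm2

/-!
Project HP (helper34), job HP-PERPT: periodic points in countable compact spaces.
-/

set_option autoImplicit false

universe u v

open Metric Set Filter Topology

namespace Pool.Agent.Y419.HB

open Pool.Agent.Y34.HB

theorem t : S_PERPT.{u} := by
  intro Q _ _ _ _ _ T
  obtain ⟨M, hM⟩ : ∃ M, Minimal (· ∈ {A : Set Q | IsClosed A ∧ A.Nonempty ∧ ∀ x ∈ A, T x ∈ A})
      M := by
    refine zorn_superset _ fun c hc hch => ?_
    rcases c.eq_empty_or_nonempty with h | h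
    · refine ⟨univ, ⟨isClosed_univ, univ_nonempty, fun _ _ => mem_univ _⟩, fun s hs => ?_⟩
      rw [h] at hs
      exact absurd hs (notMem_empty s)
    · have : Nonempty c := h.to_subtype
      refine ⟨⋂₀ c, ⟨isClosed_sInter fun s hs => (hc hs).1, ?_, ?_⟩,
        fun s hs => sInter_subset_of_mem hs⟩
      · refine IsCompact.nonempty_sInter_of_directed_nonempty_isCompact_isClosed ?_
          (fun s hs => (hc hs).2.1) (fun s hs => (hc hs).1.isCompact) (fun s hs => (hc hs).1)
        intro a ha b hb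
        rcases hch.total ha hb with h1 | h1
        · exact ⟨a, ha, Subset.rfl, h1⟩
        · exact ⟨b, hb, h1, Subset.rfl⟩
      · intro x hx s hs
        exact (hc hs).2.2 x (hx s hs)
  obtain ⟨⟨hcl, hne, hinv⟩, hmin⟩ := hM
  have : CompactSpace M := isCompact_iff_compactSpace.1 hcl.isCompact
  have : Nonempty M := hne.to_subtype
  obtain ⟨x, hx⟩ := nonempty_interior_of_iUnion_of_closed (X := M) (f := fun x : M => {x})
    (fun x => isClosed_singleton) (by
      ext y
      simp)
  have hop : IsOpen ({x} : Set M) := by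
    rw [← interior_eq_iff_isOpen]
    exact (subset_singleton_iff_eq.1 interior_subset).resolve_left hx.ne_empty
  obtain ⟨U, hU, hUx⟩ := isOpen_induced_iff.1 hop
  have hU1 : ∀ y ∈ M, y ∈ U → y = x := by
    intro y hy hyU
    have h1 : (⟨y, hy⟩ : M) ∈ Subtype.val ⁻¹' U := hyU
    rw [hUx] at h1
    exact congrArg Subtype.val h1
  have hxU : (x : Q) ∈ U := by
    have h1 : x ∈ (Subtype.val ⁻¹' U : Set M) := by
      rw [hUx]
      exact mem_singleton x
    exact h1
  have key : ∀ y ∈ M, ∃ n : ℕ, (T^[n]) y ∈ U := by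
    by_contra hcon
    push Not at hcon
    obtain ⟨y, hy, hyn⟩ := hcon
    have h1 : M ∩ {z | ∀ n : ℕ, (T^[n]) z ∉ U} ∈
        {A : Set Q | IsClosed A ∧ A.Nonempty ∧ ∀ x ∈ A, T x ∈ A} := by
      refine ⟨hcl.inter ?_, ⟨y, hy, hyn⟩, fun z hz => ⟨hinv z hz.1, fun n => ?_⟩⟩
      · rw [ofPred_forall]
        exact isClosed_iInter fun n =>
          hU.isClosed_compl.preimage (T.continuous.iterate n)
      · have := hz.2 (n + 1)
        rwa [Function.iterate_succ_apply] at this
    have h2 := hmin h1 inter_subset_left x.2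
    exact h2.2 0 hxU
  have hiter : ∀ (n : ℕ), ∀ y ∈ M, (T^[n]) y ∈ M := by
    intro n
    induction n with
    | zero => exact fun y hy => hy
    | succ n ih =>
      intro y hy
      rw [Function.iterate_succ_apply]
      exact ih _ (hinv y hy)
  obtain ⟨n, hn⟩ := key (T x) (hinv _ x.2)
  refine ⟨n + 1, x, Nat.succ_pos n, ?_⟩
  rw [Function.iterate_succ_apply]
  exact hU1 _ (hiter n _ (hinv _ x.2)) hn

end Pool.Agent.Y419.HB
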