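import Pool.Agent.Y453.HB.Stm

/-!
# Project HB, part DIL: conjugates of Hamiltonian diffeomorphisms by dilations
-/

set_option autoImplicit false

open Set Filter Topology Function

namespace Pool.Agent.Y419.HB

open Pool.Agent.Y453.HB

theorem Q_smul {n : ℕ} (c : ℝ) (x : E n) : Q (c • x) = c ^ 2 * Q x := by
  unfold Q
  rw [Finset.mul_sum]
  refine Finset.sum_congr rfl fun i _ => ?_
  simp only [Prod.smul_fst, Prod.smul_snd, Pi.smul_apply, smul_eq_mul]
  ring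

/-- the Hamiltonian vector field of the rescaled function -/
theorem XH_scale {n : ℕ} (h : E n → ℝ) (hd : Differentiable ℝ h) (s : ℝ) (hs : s ≠ 0) (p : E n) :
    XH (fun x => s ^ 2 * h (s⁻¹ • x)) p = s • XH h (s⁻¹ • p) := by
  have hlin : HasFDerivAt (fun x : E n => s⁻¹ • x) (s⁻¹ • ContinuousLinearMap.id ℝ (E n)) p :=
    (hasFDerivAt_id p).const_smul s⁻¹
  have h1 : HasFDerivAt (fun x : E n => h (s⁻¹ • x))
      ((fderiv ℝ h (s⁻¹ • p)).comp (s⁻¹ • ContinuousLinearMap.id ℝ (E n))) p :=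
    HasFDerivAt.comp p (hd (s⁻¹ • p)).hasFDerivAt hlin
  have h2 : HasFDerivAt (fun x : E n => s ^ 2 * h (s⁻¹ • x))
      (s ^ 2 • ((fderiv ℝ h (s⁻¹ • p)).comp (s⁻¹ • ContinuousLinearMap.id ℝ (E n)))) p :=
    h1.const_mul (s ^ 2)
  have key : ∀ v : E n, fderiv ℝ (fun x : E n => s ^ 2 * h (s⁻¹ • x)) p v
      = s * fderiv ℝ h (s⁻¹ • p) v := by
    intro v
    rw [h2.fderiv]
    simp only [_root_.smul_apply, ContinuousLinearMap.comp_apply,
      ContinuousLinearMap.id_apply, map_smul, smul_eq_mul]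
    field_simp
  unfold XH
  refine Prod.ext ?_ ?_
  · funext i
    simp only [Prod.smul_fst, Pi.smul_apply, smul_eq_mul]
    exact key _
  · funext i
    simp only [Prod.smul_snd, Pi.smul_apply, smul_eq_mul]
    rw [key]
    ring

theorem dil_ham : S_DIL := by
  rintro n s hs hs1 u ⟨H, hH, ⟨K, hK, hKQ, hK0⟩, ψ, hψ0, hψ, hu⟩
  have hs0 : s ≠ 0 := hs.ne'
  refine ⟨fun t x => s ^ 2 * H t (s⁻¹ • x), ?_, ⟨(fun x => s • x) '' K, ?_, ?_, ?_⟩,
    fun t x => s • ψ t (s⁻¹ • x), ?_, ?_, ?_⟩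
  · have h1 : ContDiff ℝ ((⊤ : ℕ∞) : WithTop ℕ∞)
        (fun q : ℝ × E n => s ^ 2 * Function.uncurry H (q.1, s⁻¹ • q.2)) := by
      refine contDiff_const.mul (hH.comp ?_)
      exact contDiff_fst.prodMk (contDiff_snd.const_smul s⁻¹)
    exact h1
  · exact hK.image (continuous_const_smul s)
  · rintro _ ⟨x, hx, rfl⟩
    have h1 : Q x < 1 := hKQ hx
    have h0 : 0 ≤ Q x := Finset.sum_nonneg fun i _ => by positivity
    show Q (s • x) < 1
    rw [Q_smul]
    have h2 : s ^ 2 ≤ 1 := by nlinarith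
    nlinarith
  · intro t x hx
    have h1 : s⁻¹ • x ∉ K := by
      intro h
      exact hx ⟨s⁻¹ • x, h, smul_inv_smul₀ hs0 x⟩
    show s ^ 2 * H t (s⁻¹ • x) = 0
    rw [hK0 t _ h1, mul_zero]
  · intro x
    show s • ψ 0 (s⁻¹ • x) = x
    rw [hψ0, smul_inv_smul₀ hs0]
  · intro t x
    have hd : Differentiable ℝ (H t) := by
      have h1 : ContDiff ℝ ((⊤ : ℕ∞) : WithTop ℕ∞) (fun y : E n => Function.uncurry H (t, y)) :=
        hH.comp (contDiff_const.prodMk contDiff_id)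
      exact h1.differentiable (by simp)
    have h2 := (hψ t (s⁻¹ • x)).const_smul s
    have h3 : XH (fun y => s ^ 2 * H t (s⁻¹ • y)) (s • ψ t (s⁻¹ • x))
        = s • XH (H t) (ψ t (s⁻¹ • x)) := by
      rw [XH_scale (H t) hd s hs0, inv_smul_smul₀ hs0]
    show HasDerivAt (fun r : ℝ => s • ψ r (s⁻¹ • x))
      (XH (fun y => s ^ 2 * H t (s⁻¹ • y)) (s • ψ t (s⁻¹ • x))) t
    rw [h3]
    exact h2
  · intro x
    show s • u (s⁻¹ • x) = s • ψ 1 (s⁻¹ • x)
    rw [hu]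

end Pool.Agent.Y419.HB
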